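import Pool.Agent.W973.IP.FDefs

/-! Subtask IPF-BODY: meaning of body. -/

set_option autoImplicit false

namespace Pool.Agent.W883.IP

open Pool.Agent.W973.IP Pool.Agent.NPC Pool.Agent.NPC.ER Pool.Agent.NPC.H612

theorem all_range (x : ℕ → ℝ) (m : ℕ) (f : ℕ → Fm) :
    (conj ((List.range m).map f)).Holds x ↔ ∀ i < m, (f i).Holds x := by
  rw [holds_conj]
  simp only [List.mem_map, List.mem_range]
  constructor
  · intro h i hi
    exact h _ ⟨i, hi, rfl⟩
  · rintro h φ ⟨i, hi, rfl⟩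
    exact h i hi

theorem all_range2 (x : ℕ → ℝ) (m n : ℕ) (f : ℕ → ℕ → Fm) :
    (conj ((List.range m).flatMap fun i => (List.range n).map fun j => f i j)).Holds x ↔
      ∀ i < m, ∀ j < n, (f i j).Holds x := by
  rw [holds_conj]
  simp only [List.mem_flatMap, List.mem_map, List.mem_range]
  constructor
  · intro h i hi j hj
    exact h _ ⟨i, hi, j, hj, rfl⟩
  · rintro h φ ⟨i, hi, j, hj, rfl⟩
    exact h i hi j hj

theorem sum_list (m : ℕ) (g : ℕ → ℝ) : ((List.range m).map g).sum = ∑ i : Fin m, g i := by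
  induction m with
  | zero => simp
  | succ m ih =>
    rw [List.range_succ, List.map_append, List.sum_append, ih, Fin.sum_univ_castSucc]
    simp

theorem sum_range (x : ℕ → ℝ) (m : ℕ) (f : ℕ → Tm) :
    (sumT ((List.range m).map f)).eval x = ∑ i : Fin m, (f i).eval x := by
  rw [eval_sumT, List.map_map, sum_list]
  rfl

theorem chains_iff (h2 : S_CH) (n r : ℕ) (x : ℕ → ℝ) :
    ((chY n).Holds x ∧ (∀ i < r + 1, (chX n (nm 4 i) (nm 6 i)).Holds x) ∧
      ∀ i < r + 1, (chD n (nm 6 i) (nm 7 i)).Holds x) ↔ Chains n r x := by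
  obtain ⟨hX, hD, hY, -⟩ := h2
  constructor
  · rintro ⟨a1, a2, a3⟩
    refine ⟨(hY n x).1 a1, fun i hi t ht => ⟨(hX n _ _ x).1 (a2 i (by omega)) t ht, ?_⟩⟩
    exact (hD n _ _ x _ ((hX n _ _ x).1 (a2 i (by omega)))).1 (a3 i (by omega)) t ht
  · rintro ⟨a1, a2⟩
    refine ⟨(hY n x).2 a1, fun i hi => (hX n _ _ x).2 fun t ht => (a2 i (by omega) t ht).1,
      fun i hi => ?_⟩
    exact (hD n _ _ x _ (fun t ht => (a2 i (by omega) t ht).1)).2
      fun t ht => (a2 i (by omega) t ht).2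

theorem bodyT (h1 : S_GT) (h2 : S_CH) : S_BODY := by
  intro E S r x
  have hA := chains_iff h2 (nn S) r x
  have hbody : (body E S r).Holds x ↔
      ((chY (nn S)).Holds x ∧ (∀ i < r + 1, (chX (nn S) (nm 4 i) (nm 6 i)).Holds x) ∧
      ∀ i < r + 1, (chD (nn S) (nm 6 i) (nm 7 i)).Holds x) ∧
      (∀ i < r + 1, 0 < x (nm 5 i 0)) ∧ (∑ i : Fin (r + 1), x (nm 5 i 0) = 1) ∧
      (∀ i < r + 1, ∀ i' < r + 1, i ≠ i' → ¬ ∀ j < nn S, x (nm 4 i j) = x (nm 4 i' j)) ∧
      (∀ i < r + 1, (GT E S (nm 4 i) (Tm.var (nm 6 i (b0 (nn S))))).eval x = x (nm 2 0 0)) ∧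
      (∀ i < r + 1, ∀ j < nn S, (GWT E S (nm 4 i) (Tm.var (nm 6 i (b0 (nn S))))
        (Tm.var (nm 7 i (b0 (nn S)))) j).eval x = 0) ∧
      (∀ l < nn S, ∑ i : Fin (r + 1), x (nm 5 i 0) *
        (GUT E S (nm 4 i) (Tm.var (nm 6 i (b0 (nn S)))) l).eval x = 0) := by
    unfold body
    rw [holds_conj]
    simp only [List.forall_mem_cons, List.not_mem_nil, false_imp_iff, implies_true, and_true]
    rw [all_range, all_range, all_range, all_range2, all_range, all_range2, all_range]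
    have e5 : (Fm.eq (sumT ((List.range (r + 1)).map fun i => Tm.var (nm 5 i 0))) Tm.one).Holds x ↔
        ∑ i : Fin (r + 1), x (nm 5 i 0) = 1 := by
      change (sumT ((List.range (r + 1)).map fun i => Tm.var (nm 5 i 0))).eval x = 1 ↔ _
      rw [sum_range]
      rfl
    have e6 : (∀ i < r + 1, ∀ i' < r + 1, (if i = i' then tt else
        Fm.not (conj ((List.range (nn S)).map fun j =>
        Fm.eq (Tm.var (nm 4 i j)) (Tm.var (nm 4 i' j))))).Holds x) ↔
        (∀ i < r + 1, ∀ i' < r + 1, i ≠ i' → ¬ ∀ j < nn S, x (nm 4 i j) = x (nm 4 i' j)) := by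
      refine forall₂_congr fun i _ => forall₂_congr fun i' _ => ?_
      by_cases h : i = i'
      · rw [if_pos h]
        exact ⟨fun _ h' => absurd h h', fun _ => holds_tt x⟩
      · rw [if_neg h]
        change ¬ (conj ((List.range (nn S)).map fun j =>
          Fm.eq (Tm.var (nm 4 i j)) (Tm.var (nm 4 i' j)))).Holds x ↔ _
        rw [all_range]
        exact ⟨fun h' _ => h', fun h' => h' h⟩
    have e9 : (∀ l < nn S, (Fm.eq (sumT ((List.range (r + 1)).map fun i =>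
        Tm.mul (Tm.var (nm 5 i 0))
        (GUT E S (nm 4 i) (Tm.var (nm 6 i (b0 (nn S)))) l))) Tm.zero).Holds x) ↔
        (∀ l < nn S, ∑ i : Fin (r + 1), x (nm 5 i 0) *
        (GUT E S (nm 4 i) (Tm.var (nm 6 i (b0 (nn S)))) l).eval x = 0) := by
      refine forall₂_congr fun l _ => ?_
      change (sumT ((List.range (r + 1)).map fun i =>
        Tm.mul (Tm.var (nm 5 i 0))
        (GUT E S (nm 4 i) (Tm.var (nm 6 i (b0 (nn S)))) l))).eval x = 0 ↔ _
      rw [sum_range]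
      rfl
    rw [e5, e6, e9]
    constructor
    · rintro ⟨a1, a2, a3, a4, a5, a6, a7, a8, a9⟩
      exact ⟨⟨a1, a2, a3⟩, a4, a5, a6, a7, a8, a9⟩
    · rintro ⟨⟨a1, a2, a3⟩, a4, a5, a6, a7, a8, a9⟩
      exact ⟨a1, a2, a3, a4, a5, a6, a7, a8, a9⟩
  rw [hbody, hA]
  refine and_congr_right fun hC => ?_
  have hG : ∀ i, i ≤ r → _ := fun i hi => h1 E S (nm 4 i) x (Tm.var (nm 6 i (b0 (nn S))))
    (Tm.var (nm 7 i (b0 (nn S)))) hC.1 (hC.2 i hi (b0 (nn S)) le_rfl).1 (by
      have h3 := (hC.2 i hi (b0 (nn S)) le_rfl).2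
      change x (nm 7 i (b0 (nn S))) = _
      rw [h3]
      unfold NN
      push_cast
      rfl)
  constructor
  · rintro ⟨a4, a5, a6, a7, a8, a9⟩
    refine ⟨fun i => a4 i i.2, a5, ?_, ?_, ?_, ?_⟩
    · intro i i' h
      by_contra hne
      apply a6 i i.2 i' i'.2 (fun h' => hne (Fin.ext h'))
      intro j hj
      exact congrFun h ⟨j, hj⟩
    · intro i
      rw [← (hG i (by omega)).1]
      exact a7 i i.2
    · intro i j
      rw [← (hG i (by omega)).2.1 j]
      exact a8 i i.2 j j.2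
    · intro l
      rw [← a9 l l.2]
      refine Finset.sum_congr rfl fun i _ => ?_
      rw [(hG i (by omega)).2.2 l]
  · intro h
    refine ⟨fun i hi => h.pos ⟨i, hi⟩, h.sum, ?_, ?_, ?_, ?_⟩
    · intro i hi i' hi' hne hj
      apply hne
      have h3 := h.inj (a₁ := ⟨i, hi⟩) (a₂ := ⟨i', hi'⟩) (funext fun j => hj j j.2)
      exact congrArg Fin.val h3
    · intro i hi
      rw [(hG i (by omega)).1]
      exact h.val ⟨i, hi⟩
    · intro i hi j hj
      rw [(hG i (by omega)).2.1 ⟨j, hj⟩]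
      exact h.gw ⟨i, hi⟩ ⟨j, hj⟩
    · intro l hl
      rw [← h.gu ⟨l, hl⟩]
      refine Finset.sum_congr rfl fun i _ => ?_
      rw [(hG i (by omega)).2.2 ⟨l, hl⟩]

end Pool.Agent.W883.IP
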